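import Pool.Agent.Lib.PWief.Fin

/-!
# MP_eaa2ff_nt: a positive proportion of the primes is not Pell-Wieferich

If `q ^ 2` divides a NSW number `S_k` and `q` does not divide `k`, then `q ^ 2` divides the Pell number with index
`q - (2/q)`. For all large `X` at least `X / (120 log X)` primes `q ≤ X` are not of this kind: `q ^ 2` divides
neither `((1+√2)^k + (1-√2)^k)/2` nor the Pell number `((1+√2)^k - (1-√2)^k)/(2√2)` for any `k` not divisible by `q`.
-/

open Finset
open scoped Classical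

namespace Pool.Agent.Results.MP_eaa2ff_nt.NonPellWieferich

lemma exists_ab (k : ℕ) : ∃ a b : ℕ, (1 + Real.sqrt 2) ^ k = (a : ℝ) + (b : ℝ) * Real.sqrt 2 ∧
    (1 - Real.sqrt 2) ^ k = (a : ℝ) - (b : ℝ) * Real.sqrt 2 := by
  have h2 : Real.sqrt 2 * Real.sqrt 2 = 2 := Real.mul_self_sqrt (by norm_num)
  induction k with
  | zero => exact ⟨1, 0, by simp, by simp⟩
  | succ k ih =>
    obtain ⟨a, b, h, h'⟩ := ih
    refine ⟨a + 2 * b, a + b, ?_, ?_⟩
    · rw [pow_succ, h]
      push_cast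
      linear_combination (b : ℝ) * h2
    · rw [pow_succ, h']
      push_cast
      linear_combination (b : ℝ) * h2

theorem result : ∃ X0 : ℕ, ∀ X : ℕ, X0 ≤ X →
    (X : ℝ) / (120 * Real.log X) ≤
      (({q : ℕ | q ≤ X ∧ q.Prime ∧ ∀ k : ℕ, ¬ q ∣ k →
        (∀ N : ℕ, (N : ℝ) = ((1 + Real.sqrt 2) ^ k + (1 - Real.sqrt 2) ^ k) / 2 → ¬ q ^ 2 ∣ N) ∧
        (∀ P : ℕ, (P : ℝ) = ((1 + Real.sqrt 2) ^ k - (1 - Real.sqrt 2) ^ k) / (2 * Real.sqrt 2) →
          ¬ q ^ 2 ∣ P)} : Set ℕ).ncard : ℝ) := by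
  obtain ⟨X0, h⟩ := PWief.count_final
  refine ⟨X0, fun X hX => (h X hX).trans ?_⟩
  rw [← Set.ncard_coe_finset]
  refine Nat.cast_le.2 (Set.ncard_le_ncard ?_ ((Set.finite_Iic X).subset fun q hq => hq.1))
  intro q hq
  have hq' := Finset.mem_filter.1 (Finset.mem_coe.1 hq)
  have hq1 := Finset.mem_range.1 hq'.1
  refine ⟨by omega, hq'.2.1, fun k hk => ?_⟩
  have h0 : Real.sqrt 2 ≠ 0 := by positivity
  obtain ⟨a, b, hab, hab'⟩ := exists_ab k
  have h1 := hq'.2.2 k a b hk hab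
  constructor
  · intro N hN
    rw [hab, hab'] at hN
    have h2 : (N : ℝ) = a := by rw [hN]; ring
    have h3 : N = a := by exact_mod_cast h2
    rw [h3]
    exact h1.1
  · intro P hP
    rw [hab, hab'] at hP
    have h2 : (P : ℝ) = b := by
      rw [hP]
      field_simp
      ring
    have h3 : P = b := by exact_mod_cast h2
    rw [h3]
    exact h1.2

end Pool.Agent.Results.MP_eaa2ff_nt.NonPellWieferich
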