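import Pool.Agent.Lib.PTr.Main

/-!
# MP_eaa2ff_nt: a positive proportion of NSW numbers of prime index without small prime factors

For every real `lam > 0` there is `c > 0` such that for all large `X` at least `c X / log X` primes
`p ≤ X` have the property that every prime factor of the NSW number `S_p` exceeds `lam p log p`.
-/

open Finset
open scoped Classical

namespace Pool.Agent.Results.MP_eaa2ff_nt.PositiveProportion

/-- the prime factors of `S_p`, `p` an odd prime, are `1` modulo `p` -/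
lemma dvd_sub_one {p q : ℕ} (hp : p.Prime) (h3 : 3 < p) (hq : q.Prime) (N : ℕ)
    (hN : (N : ℝ) = ((1 + Real.sqrt 2) ^ p + (1 - Real.sqrt 2) ^ p) / 2) (h : q ∣ N) :
    p ∣ q - 1 := by
  have : Fact q.Prime := ⟨hq⟩
  have hodd : Odd p := hp.odd_of_ne_two (by omega)
  set z : ℤ√2 := ⟨1, 1⟩ with hz
  have hs : Real.sqrt 2 * Real.sqrt 2 = ((2 : ℤ) : ℝ) := by
    rw [Real.mul_self_sqrt (by norm_num)]; norm_num
  have hs' : (-Real.sqrt 2) * (-Real.sqrt 2) = ((2 : ℤ) : ℝ) := by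
    rw [neg_mul_neg, hs]
  have e1 : (1 + Real.sqrt 2) ^ p = ((z ^ p).re : ℝ) + (z ^ p).im * Real.sqrt 2 := by
    have h1 := Zsqrtd.lift_apply_apply (⟨Real.sqrt 2, hs⟩ : {r : ℝ // r * r = ((2 : ℤ) : ℝ)}) (z ^ p)
    rw [map_pow, Zsqrtd.lift_apply_apply] at h1
    simpa [hz] using h1
  have e2 : (1 - Real.sqrt 2) ^ p = ((z ^ p).re : ℝ) - (z ^ p).im * Real.sqrt 2 := by
    have h1 := Zsqrtd.lift_apply_apply (⟨-Real.sqrt 2, hs'⟩ : {r : ℝ // r * r = ((2 : ℤ) : ℝ)})
      (z ^ p)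
    rw [map_pow, Zsqrtd.lift_apply_apply] at h1
    simpa [hz, sub_eq_add_neg] using h1
  have e3 : ((z ^ p).re : ℝ) = N := by
    rw [hN, e1, e2]; ring
  have e4 : (z ^ p).re = (N : ℤ) := by exact_mod_cast e3
  have e5 : (z ^ p).re * (z ^ p).re - 2 * (z ^ p).im * (z ^ p).im = -1 := by
    have h1 := map_pow (Zsqrtd.normMonoidHom (d := 2)) z p
    have h2 : (Zsqrtd.normMonoidHom (d := 2)) z = -1 := by
      show Zsqrtd.norm z = -1
      rw [Zsqrtd.norm_def, hz]
      norm_num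
    rw [h2, hodd.neg_one_pow] at h1
    have h3 : (Zsqrtd.normMonoidHom (d := 2)) (z ^ p) = Zsqrtd.norm (z ^ p) := rfl
    rw [h3, Zsqrtd.norm_def] at h1
    exact h1
  set y : ZMod q := ((z ^ p).im : ZMod q) with hy
  have hN0 : (((z ^ p).re : ℤ) : ZMod q) = 0 := by
    rw [e4]
    push_cast
    exact (ZMod.natCast_eq_zero_iff N q).2 h
  have e6 : 2 * y * y = 1 := by
    have h1 := congrArg (Int.cast : ℤ → ZMod q) e5
    push_cast at h1
    rw [hN0, ← hy] at h1
    linear_combination (-1 : ZMod q) * h1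
  set r : ZMod q := 2 * y with hr
  have hrr : r * r = ((2 : ℤ) : ZMod q) := by
    push_cast
    rw [hr]
    linear_combination (2 : ZMod q) * e6
  have e7 : (1 + r) ^ p = 1 := by
    have h1 := Zsqrtd.lift_apply_apply (⟨r, hrr⟩ : {r : ZMod q // r * r = ((2 : ℤ) : ZMod q)})
      (z ^ p)
    rw [map_pow, Zsqrtd.lift_apply_apply] at h1
    rw [hN0, ← hy] at h1
    have h2 : (1 + r) ^ p = 0 + y * r := by simpa [hz] using h1
    rw [h2, zero_add, hr]
    linear_combination e6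
  have e8 : (1 + r) ≠ 1 := by
    intro h1
    have h2 : r = 0 := by
      have := congrArg (fun t => t - 1) h1
      simpa using this
    have h3 : (1 : ZMod q) = 0 := by
      rw [← e6, h2, zero_mul]
    exact one_ne_zero h3
  have h6 := orderOf_eq_prime (hp := ⟨hp⟩) e7 e8
  rw [← h6]
  apply ZMod.orderOf_dvd_card_sub_one
  intro h7
  rw [h7, zero_pow hp.ne_zero] at e7
  exact zero_ne_one e7

theorem result (lam : ℝ) (hlam : 0 < lam) : ∃ c : ℝ, 0 < c ∧ ∃ X₀ : ℝ, ∀ X : ℝ, X₀ ≤ X →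
    c * X / Real.log X ≤ (((Icc 1 ⌊X⌋₊).filter fun p : ℕ => p.Prime ∧
      ∀ N : ℕ, (N : ℝ) = ((1 + Real.sqrt 2) ^ p + (1 - Real.sqrt 2) ^ p) / 2 →
      ∀ q : ℕ, q.Prime → q ∣ N → lam * p * Real.log p < q).card : ℝ) := by
  obtain ⟨c, X₀, hc, h⟩ := PTr.Cor_p PTr.theoremT 1 one_ne_zero lam hlam 3
  refine ⟨c, hc, X₀, fun X hX => (h X hX).trans ?_⟩
  refine Nat.cast_le.2 (card_le_card ?_)
  intro p hp
  rw [mem_filter] at hp ⊢
  obtain ⟨h1, h2, h3, h4⟩ := hp
  refine ⟨h1, h2, fun N hN q hq hqp => h4 q hq ?_ ?_⟩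
  · obtain ⟨k, hk⟩ := dvd_sub_one h2 h3 hq N hN hqp
    refine ⟨k, ?_⟩
    have := hq.one_lt
    have h5 : q = p * k + 1 := by omega
    rw [h5]
    push_cast
    ring
  · have := hq.one_lt
    intro h5
    have h6 : q = 1 := by exact_mod_cast h5
    omega

end Pool.Agent.Results.MP_eaa2ff_nt.PositiveProportion
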